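import Pool.Agent.H96.AL.Targets3

/-!
Module BC of the board al_modules.
-/

open Topology Set Filter Real

namespace Pool.Agent.H30.AL

open Pool.Agent.H96.AL

variable {X : Type} [MetricSpace X]

theorem exists_btw (hG : Geo X) (x y : X) {l : ℝ} (h0 : 0 ≤ l) (h1 : l ≤ 1) :
    ∃ m, Btw x m y ∧ dist x m = l * dist x y := by
  obtain ⟨γ, hγ⟩ := hG x y
  have hd : 0 ≤ dist x y := dist_nonneg
  have hr : l * dist x y ∈ Icc 0 (dist x y) :=
    ⟨mul_nonneg h0 hd, by nlinarith⟩
  have i0 : (0 : ℝ) ∈ Icc 0 (dist x y) := ⟨le_rfl, hd⟩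
  have i1 : dist x y ∈ Icc 0 (dist x y) := ⟨hd, le_rfl⟩
  have e1 : dist x (γ (l * dist x y)) = l * dist x y := by
    have := hγ.2.2 0 i0 _ hr
    rw [hγ.1, zero_sub, abs_neg, abs_of_nonneg hr.1] at this
    exact this
  have e2 : dist (γ (l * dist x y)) y = dist x y - l * dist x y := by
    have := hγ.2.2 _ hr _ i1
    rw [hγ.2.1, abs_sub_comm, abs_of_nonneg (by linarith [hr.2])] at this
    exact this
  refine ⟨γ (l * dist x y), ?_, e1⟩
  unfold Pool.Agent.H96.AL.Btw
  rw [e1, e2]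
  ring

/-- the function `Ψ` is Lipschitz on the small ball -/
theorem psi_lip {z q u u' : X} {s : ℝ} (hs : 0 < s) (h1 : dist z u ≤ 3 * s)
    (h2 : dist z u' ≤ 3 * s) (h3 : dist q u ≤ 2 * s) (h4 : dist q u' ≤ 2 * s) :
    |(s ^ 2 + dist z u ^ 2 - dist q u ^ 2) / (2 * s) -
      (s ^ 2 + dist z u' ^ 2 - dist q u' ^ 2) / (2 * s)| ≤ 5 * dist u u' := by
  have e : (s ^ 2 + dist z u ^ 2 - dist q u ^ 2) / (2 * s) -
      (s ^ 2 + dist z u' ^ 2 - dist q u' ^ 2) / (2 * s) =
      ((dist z u - dist z u') * (dist z u + dist z u') +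
        (dist q u' - dist q u) * (dist q u + dist q u')) / (2 * s) := by
    rw [← sub_div]
    congr 1
    ring
  have a1 : |dist z u - dist z u'| ≤ dist u u' := by
    rw [dist_comm z u, dist_comm z u']
    exact abs_dist_sub_le u u' z
  have a2 : |dist q u' - dist q u| ≤ dist u u' := by
    rw [dist_comm q u, dist_comm q u', abs_sub_comm]
    exact abs_dist_sub_le u u' q
  have b1 : |(dist z u - dist z u') * (dist z u + dist z u')| ≤ dist u u' * (6 * s) := by
    rw [abs_mul, abs_of_nonneg (add_nonneg dist_nonneg dist_nonneg)]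
    exact mul_le_mul a1 (by linarith) (add_nonneg dist_nonneg dist_nonneg) dist_nonneg
  have b2 : |(dist q u' - dist q u) * (dist q u + dist q u')| ≤ dist u u' * (4 * s) := by
    rw [abs_mul, abs_of_nonneg (add_nonneg dist_nonneg dist_nonneg : 0 ≤ dist q u + dist q u')]
    exact mul_le_mul a2 (by linarith) (add_nonneg dist_nonneg dist_nonneg) dist_nonneg
  rw [e, abs_div, abs_of_pos (by linarith : 0 < 2 * s), div_le_iff₀ (by linarith)]
  refine (abs_add_le _ _).trans ?_
  nlinarith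

theorem bc (hBM : T_BM) (hCO : T_CO) : T_BC := by
  intro X _ D R C n hX hR hR1 hC hP
  have hD : 1 ≤ D := hX.one_le
  have hD0 : 0 < D := by linarith
  set K : ℝ := D / R with hKdef
  have hK1 : 1 ≤ K := by
    rw [hKdef, le_div_iff₀ hR]
    linarith
  have hch : 1 ≤ cosh D := one_le_cosh D
  set H : ℝ := cosh D ^ 2 with hHdef
  have hH1 : 1 ≤ H := one_le_pow₀ hch
  have hH0 : 0 < H := by linarith
  set M : ℝ := 6 * D * H ^ 2 with hMdef
  have hM0 : 0 < M := by positivity
  refine ⟨8000 * K ^ 2 * C * (M ^ n + D ^ n), by positivity, ?_⟩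
  intro c ε hc hc1 hε hεc
  set Δ : ℝ := 4000 * K ^ 2 * c with hΔdef
  have hΔ0 : 0 < Δ := by positivity
  rcases lt_or_ge (1 / 2) Δ with hbig | hsml
  · refine ⟨1, one_pos, ?_⟩
    intro z q q' q₂ s hs _ _ _ _ _ _ B hB _
    have h1 := hP z D ε hD0 le_rfl hε (by linarith) B
      (fun y _ => Metric.mem_closedBall.2 (hX.diam _ _)) hB
    have e : C * (D / ε) ^ n = 1 * (C * D ^ n * (1 / ε) ^ n) := by
      rw [div_eq_mul_one_div, mul_pow]
      ring
    have hpos : 0 ≤ C * D ^ n * (1 / ε) ^ n := by positivity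
    have h2 : 1 * (C * D ^ n * (1 / ε) ^ n) ≤ (2 * Δ) * (C * D ^ n * (1 / ε) ^ n) :=
      mul_le_mul_of_nonneg_right (by linarith) hpos
    have h3 : 8000 * K ^ 2 * C * (M ^ n + D ^ n) * c * (1 / ε) ^ n =
        (2 * Δ) * (C * D ^ n * (1 / ε) ^ n) + (2 * Δ) * (C * M ^ n * (1 / ε) ^ n) := by
      rw [hΔdef]
      ring
    have h4 : 0 ≤ (2 * Δ) * (C * M ^ n * (1 / ε) ^ n) := by positivity
    rw [h3]
    linarith
  · obtain ⟨s₀, hs₀, hmic⟩ := hBM X D R c hX hR hc hc1
    refine ⟨min s₀ (D / 3), lt_min hs₀ (by positivity), ?_⟩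
    intro z q q' q₂ s hs hss hzq hzq' hqq' hqq₂ hzq₂ B hB hBy
    have hs1 : s ≤ s₀ := hss.trans (min_le_left _ _)
    have hs2 : 3 * s ≤ D := by
      have := hss.trans (min_le_right _ _)
      linarith
    set lam : ℝ := s / D with hlam
    have hl0 : 0 < lam := div_pos hs hD0
    have hl1 : lam ≤ 1 := (div_le_one hD0).2 (by linarith)
    have hlD : lam * D = s := div_mul_cancel₀ _ hD0.ne'
    choose w hw hw' using fun y : X => exists_btw hX.geo z y hl0.le hl1
    have hu_ex : ∀ (y : X) (t : ℝ), ∃ u : X, 0 ≤ t → t ≤ 1 →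
        Btw q u (w y) ∧ dist q u = (1 - t) * dist q (w y) := by
      intro y t
      by_cases ht : 0 ≤ t ∧ t ≤ 1
      · obtain ⟨u, hu, hu'⟩ := exists_btw hX.geo q (w y) (l := 1 - t) (by linarith [ht.2])
          (by linarith [ht.1])
        exact ⟨u, fun _ _ => ⟨hu, hu'⟩⟩
      · exact ⟨q, fun h1 h2 => absurd ⟨h1, h2⟩ ht⟩
    choose u hu using hu_ex
    have hzw : ∀ y, dist z (w y) ≤ s := by
      intro y
      rw [hw' y]
      have : lam * dist z y ≤ lam * D := mul_le_mul_of_nonneg_left (hX.diam _ _) hl0.le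
      linarith
    have hqw : ∀ y, dist q (w y) ≤ 2 * s := by
      intro y
      have := dist_triangle q z (w y)
      rw [dist_comm q z, hzq] at this
      linarith [hzw y]
    have hqu : ∀ y t, 0 ≤ t → t ≤ 1 → dist q (u y t) ≤ 2 * s := by
      intro y t h0 h1
      rw [(hu y t h0 h1).2]
      have : (1 - t) * dist q (w y) ≤ 1 * dist q (w y) :=
        mul_le_mul_of_nonneg_right (by linarith) dist_nonneg
      linarith [hqw y]
    have hzu : ∀ y t, 0 ≤ t → t ≤ 1 → dist z (u y t) ≤ 3 * s := by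
      intro y t h0 h1
      have := dist_triangle z q (u y t)
      linarith [hqu y t h0 h1]
    have hKz : ∀ y ∈ B, s ≤ K * dist z (w y) := by
      intro y hy
      have h1 := (hBy y hy).1
      rw [hw' y]
      have e : K * (lam * dist z y) = s / R * dist z y := by
        rw [hKdef, hlam]
        field_simp
      rw [e, div_mul_eq_mul_div, le_div_iff₀ hR]
      exact mul_le_mul_of_nonneg_left h1 hs.le
    -- the values of `Ψ`
    have hPsi : ∀ y ∈ B, ∀ t, 0 ≤ t → t ≤ 1 / 2 →
        |(s ^ 2 + dist z (u y t) ^ 2 - dist q (u y t) ^ 2) / (2 * s) - t * s| ≤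
          1000 * K ^ 2 * c * s := by
      intro y hy t h0 h1
      have hb := hBy y hy
      have hut := hu y t h0 (by linarith)
      refine (hmic z q q' q₂ y (w y) (u y t) s lam t hs hs1 hl0 hl1 h0 h1 hb.1 hzq hzq' hqq' hqq₂
        hzq₂ hb.2.1 hb.2.2.1 hb.2.2.2 (hw y) (hw' y) ?_ (hKz y hy) hut.1 hut.2).1
      have : 1 * s ≤ D / R * s := mul_le_mul_of_nonneg_right hK1 hs.le
      linarith [hzw y]
    set ε' : ℝ := s * ε / (2 * D * H ^ 2) with hε'
    have hε'0 : 0 < ε' := by positivity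
    -- separation for equal parameters
    have hsep1 : ∀ y ∈ B, ∀ y' ∈ B, y ≠ y' → ∀ t, 0 ≤ t → t ≤ 1 / 2 →
        ε' ≤ dist (u y t) (u y' t) := by
      intro y hy y' hy' hne t h0 h1
      have c1 := hCO X D hX z y y' (w y) (w y') lam hl0 hl1 (hw y) (hw y') (hw' y) (hw' y')
      have u1 := hu y t h0 (by linarith)
      have u2 := hu y' t h0 (by linarith)
      have c2 := hCO X D hX q (w y) (w y') (u y t) (u y' t) (1 - t) (by linarith) (by linarith)
        u1.1 u2.1 u1.2 u2.2
      rw [← hHdef] at c1 c2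
      have hsep := hB y hy y' hy' hne
      have d1 : lam * ε ≤ H * dist (w y) (w y') :=
        (mul_le_mul_of_nonneg_left hsep hl0.le).trans c1
      have d2 : 1 / 2 * dist (w y) (w y') ≤ H * dist (u y t) (u y' t) :=
        (mul_le_mul_of_nonneg_right (by linarith) dist_nonneg).trans c2
      have d3 : lam * ε / 2 ≤ H ^ 2 * dist (u y t) (u y' t) := by nlinarith
      have e : ε' = lam * ε / 2 / H ^ 2 := by
        rw [hε', hlam]
        field_simp
      rw [e, div_le_iff₀ (by positivity)]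
      linarith
    have hε's : ε' ≤ s * ε := by
      rw [hε', div_le_iff₀ (by positivity)]
      have : 1 ≤ 2 * D * H ^ 2 := by nlinarith [one_le_pow₀ hH1 (n := 2)]
      nlinarith [mul_pos hs hε]
    -- separation for different parameters
    have hsep2 : ∀ y ∈ B, ∀ y' ∈ B, ∀ k k' : ℕ, k < k' → (k' : ℝ) * Δ ≤ 1 / 2 →
        ε' ≤ dist (u y (k * Δ)) (u y' (k' * Δ)) := by
      intro y hy y' hy' k k' hkk hk'
      have hk0 : (0 : ℝ) ≤ k * Δ := by positivity
      have hk1 : (k : ℝ) * Δ + Δ ≤ k' * Δ := by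
        have : (k : ℝ) + 1 ≤ k' := by exact_mod_cast hkk
        nlinarith
      have p1 := hPsi y hy (k * Δ) hk0 (by linarith)
      have p2 := hPsi y' hy' (k' * Δ) (by linarith) hk'
      have p3 := psi_lip (z := z) (q := q) hs (hzu y (k * Δ) hk0 (by linarith))
        (hzu y' (k' * Δ) (by linarith) (by linarith)) (hqu y (k * Δ) hk0 (by linarith))
        (hqu y' (k' * Δ) (by linarith) (by linarith))
      rw [abs_le] at p1 p2 p3
      have e1 : 1000 * K ^ 2 * c * s = Δ * s / 4 := by rw [hΔdef]; ring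
      have e2 : Δ * s ≤ k' * Δ * s - k * Δ * s := by nlinarith
      have e3 : Δ * s / 10 ≤ dist (u y (k * Δ)) (u y' (k' * Δ)) := by
        rw [e1] at p1 p2
        linarith [p1.1, p1.2, p2.1, p2.2, p3.1, p3.2]
      have e4 : s * ε ≤ Δ * s / 10 := by
        have hK2 : 1 ≤ K ^ 2 := one_le_pow₀ hK1
        have : 10 * ε ≤ Δ := by
          rw [hΔdef]
          nlinarith
        nlinarith
      linarith
    -- counting
    set I : ℕ := ⌊1 / (2 * Δ)⌋₊ + 1 with hI
    have hIk : ∀ k < I, (k : ℝ) * Δ ≤ 1 / 2 := by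
      intro k hk
      have h1 : k ≤ ⌊1 / (2 * Δ)⌋₊ := Nat.lt_succ_iff.1 hk
      have h2 : (k : ℝ) ≤ 1 / (2 * Δ) :=
        (Nat.cast_le.2 h1).trans (Nat.floor_le (by positivity))
      rw [le_div_iff₀ (by positivity)] at h2
      linarith
    have hIl : 1 / (2 * Δ) ≤ (I : ℝ) := by
      rw [hI]
      push_cast
      exact (Nat.lt_floor_add_one _).le
    classical
    have hsep : ∀ a ∈ Finset.range I ×ˢ B, ∀ b ∈ Finset.range I ×ˢ B, a ≠ b →
        ε' ≤ dist (u a.2 (a.1 * Δ)) (u b.2 (b.1 * Δ)) := by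
      rintro ⟨k, y⟩ ha ⟨k', y'⟩ hb hne
      rw [Finset.mem_product, Finset.mem_range] at ha hb
      rcases lt_trichotomy k k' with h | h | h
      · exact hsep2 y ha.2 y' hb.2 k k' h (hIk k' hb.1)
      · subst h
        refine hsep1 y ha.2 y' hb.2 (fun h => hne (by rw [h])) _ (by positivity) (hIk k ha.1)
      · have := hsep2 y' hb.2 y ha.2 k' k h (hIk k ha.1)
        rw [dist_comm] at this
        exact this
    have hinj : Set.InjOn (fun a : ℕ × X => u a.2 (a.1 * Δ)) (↑(Finset.range I ×ˢ B)) := by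
      intro a ha b hb hab
      by_contra hne
      have h1 := hsep a ha b hb hne
      have h2 : u a.2 (a.1 * Δ) = u b.2 (b.1 * Δ) := hab
      rw [h2, dist_self] at h1
      linarith
    have hcard : ((Finset.range I ×ˢ B).image (fun a : ℕ × X => u a.2 (a.1 * Δ))).card =
        I * B.card := by
      rw [Finset.card_image_of_injOn hinj, Finset.card_product, Finset.card_range]
    have hle := hP z (3 * s) ε' (by linarith) hs2 hε'0 (by nlinarith)
      ((Finset.range I ×ˢ B).image (fun a : ℕ × X => u a.2 (a.1 * Δ)))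
      (by
        intro v hv
        rw [Finset.coe_image, Set.mem_image] at hv
        obtain ⟨a, ha, rfl⟩ := hv
        have ha' := Finset.mem_product.1 (Finset.mem_coe.1 ha)
        have ha1 := Finset.mem_range.1 ha'.1
        rw [Metric.mem_closedBall, dist_comm]
        exact hzu a.2 _ (by positivity) (by linarith [hIk a.1 ha1]))
      (by
        intro v hv v' hv' hne
        obtain ⟨a, ha, rfl⟩ := Finset.mem_image.1 hv
        obtain ⟨b, hb, rfl⟩ := Finset.mem_image.1 hv'
        exact hsep a ha b hb (fun h => hne (by rw [h])))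
    rw [hcard] at hle
    push_cast at hle
    have e1 : 3 * s / ε' = M * (1 / ε) := by
      rw [hε', hMdef]
      field_simp
      ring
    rw [e1, mul_pow] at hle
    have h5 : 1 / (2 * Δ) * (B.card : ℝ) ≤ C * (M ^ n * (1 / ε) ^ n) :=
      (mul_le_mul_of_nonneg_right hIl (Nat.cast_nonneg _)).trans hle
    have h6 : (B.card : ℝ) ≤ 2 * Δ * (C * (M ^ n * (1 / ε) ^ n)) := by
      rw [one_div, inv_mul_le_iff₀ (by positivity)] at h5
      exact h5
    have h7 : 8000 * K ^ 2 * C * (M ^ n + D ^ n) * c * (1 / ε) ^ n =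
        (2 * Δ) * (C * (M ^ n * (1 / ε) ^ n)) + (2 * Δ) * (C * D ^ n * (1 / ε) ^ n) := by
      rw [hΔdef]
      ring
    have h8 : 0 ≤ (2 * Δ) * (C * D ^ n * (1 / ε) ^ n) := by positivity
    rw [h7]
    linarith

end Pool.Agent.H30.AL
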