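import Pool.Agent.H96.AL.Targets3

/-!
Module BS of the board al_modules.
-/

open Topology Set Filter Real

namespace Pool.Agent.H30.AL

open Pool.Agent.H96.AL

variable {X : Type} [MetricSpace X]

/-- semiconcavity of the distance away from the point -/
theorem dist_sc (hQQ : T_QQ) (hcb : CB X) {q x y m : X} {τ ρ d : ℝ} (hτ : τ ∈ Icc (0 : ℝ) 1)
    (h1 : dist x m = τ * dist x y) (h2 : dist m y = (1 - τ) * dist x y) (hx : dist q x ≤ ρ)
    (hy : dist q y ≤ ρ) (hd : 0 < d) (hdx : d ≤ dist q x) (hdy : d ≤ dist q y) :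
    (1 - τ) * dist q x + τ * dist q y - cosh ρ / d * (τ * (1 - τ) * dist x y ^ 2) ≤ dist q m := by
  have h := hQQ X hcb q x y m τ ρ hτ h1 h2 hx hy
  set M := (1 - τ) * dist q x + τ * dist q y with hM
  set K := cosh ρ * (τ * (1 - τ) * dist x y ^ 2) with hK
  have hτ0 := hτ.1
  have hτ1 : 0 ≤ 1 - τ := by linarith [hτ.2]
  have hMd : d ≤ M := by
    have a1 := mul_le_mul_of_nonneg_left hdx hτ1
    have a2 := mul_le_mul_of_nonneg_left hdy hτ0
    rw [hM]
    linarith
  have hK0 : 0 ≤ K := by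
    rw [hK]
    exact mul_nonneg (cosh_pos ρ).le (mul_nonneg (mul_nonneg hτ0 hτ1) (sq_nonneg _))
  have hM2 : M ^ 2 ≤ (1 - τ) * dist q x ^ 2 + τ * dist q y ^ 2 := by
    have e : (1 - τ) * dist q x ^ 2 + τ * dist q y ^ 2 - M ^ 2 =
        τ * (1 - τ) * (dist q x - dist q y) ^ 2 := by rw [hM]; ring
    have : 0 ≤ τ * (1 - τ) * (dist q x - dist q y) ^ 2 :=
      mul_nonneg (mul_nonneg hτ0 hτ1) (sq_nonneg _)
    linarith
  have h' : M ^ 2 - K ≤ dist q m ^ 2 := by
    have e : cosh ρ * τ * (1 - τ) * dist x y ^ 2 = K := by rw [hK]; ring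
    rw [e] at h
    linarith
  have e2 : cosh ρ / d * (τ * (1 - τ) * dist x y ^ 2) = K / d := by rw [hK]; ring
  rw [e2]
  by_contra hcon
  rw [not_le] at hcon
  have hpos : 0 ≤ dist q m := dist_nonneg
  have hlt : dist q m < M := by
    have : 0 ≤ K / d := div_nonneg hK0 hd.le
    linarith
  have h3 : K / d < M - dist q m := by linarith
  have h4 : K < (M - dist q m) * d := by rwa [div_lt_iff₀ hd] at h3
  have h5 : (M - dist q m) * d ≤ (M - dist q m) * (M + dist q m) :=
    mul_le_mul_of_nonneg_left (by linarith) (by linarith)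
  have h6 : (M - dist q m) * (M + dist q m) = M ^ 2 - dist q m ^ 2 := by ring
  linarith

/-- three points on a shortest path -/
theorem slope3 (hQQ : T_QQ) (hcb : CB X) {q x y : X} {γ : ℝ → X} {ρ d : ℝ}
    (hγ : IsGeod γ x y) (hd : 0 < d)
    (hdq : ∀ s ∈ Icc (0 : ℝ) (dist x y), d ≤ dist q (γ s) ∧ dist q (γ s) ≤ ρ) {s r t : ℝ}
    (hs : 0 ≤ s) (hsr : s < r) (hrt : r < t) (ht : t ≤ dist x y) :
    (r - s) * (dist q (γ t) - dist q (γ r)) ≤
      (t - r) * (dist q (γ r) - dist q (γ s)) + cosh ρ / d * ((r - s) * (t - r) * (t - s)) := by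
  have is : s ∈ Icc (0 : ℝ) (dist x y) := ⟨hs, by linarith⟩
  have ir : r ∈ Icc (0 : ℝ) (dist x y) := ⟨by linarith, by linarith⟩
  have it : t ∈ Icc (0 : ℝ) (dist x y) := ⟨by linarith, ht⟩
  have hts : 0 < t - s := by linarith
  have dsr : dist (γ s) (γ r) = r - s := by
    rw [hγ.2.2 s is r ir, abs_sub_comm, abs_of_pos (by linarith)]
  have drt : dist (γ r) (γ t) = t - r := by
    rw [hγ.2.2 r ir t it, abs_sub_comm, abs_of_pos (by linarith)]
  have dst : dist (γ s) (γ t) = t - s := by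
    rw [hγ.2.2 s is t it, abs_sub_comm, abs_of_pos (by linarith)]
  have hτ : (r - s) / (t - s) ∈ Icc (0 : ℝ) 1 :=
    ⟨div_nonneg (by linarith) hts.le, (div_le_one hts).2 (by linarith)⟩
  have e1 : (r - s) / (t - s) * (t - s) = r - s := div_mul_cancel₀ _ hts.ne'
  have h := dist_sc hQQ hcb (q := q) (x := γ s) (y := γ t) (m := γ r) (τ := (r - s) / (t - s))
    (ρ := ρ) (d := d) hτ (by rw [dsr, dst, e1]) (by rw [drt, dst, sub_mul, e1]; ring)
    (hdq s is).2 (hdq t it).2 hd (hdq s is).1 (hdq t it).1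
  rw [dst] at h
  have h2 := mul_le_mul_of_nonneg_left h hts.le
  have e2 : (t - s) * ((1 - (r - s) / (t - s)) * dist q (γ s) + (r - s) / (t - s) * dist q (γ t) -
      cosh ρ / d * ((r - s) / (t - s) * (1 - (r - s) / (t - s)) * (t - s) ^ 2)) =
      (t - r) * dist q (γ s) + (r - s) * dist q (γ t) -
      cosh ρ / d * ((r - s) * (t - r) * (t - s)) := by
    have hne : t - s ≠ 0 := hts.ne'
    field_simp
    ring
  rw [e2] at h2
  linarith

/-- the elementary part -/
theorem bs_real {φ : ℝ → ℝ} {δ C L c s t : ℝ} (hδ : 0 < δ) (hC : 0 ≤ C) (hL : 0 ≤ L) (hc : 0 < c)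
    (hsc : ∀ s r t : ℝ, 0 ≤ s → s < r → r < t → t ≤ δ →
      (r - s) * (φ t - φ r) ≤ (t - r) * (φ r - φ s) + L * ((r - s) * (t - r) * (t - s)))
    (h1 : ∀ s ∈ Icc (0 : ℝ) δ, φ s ≤ φ δ + C * (δ - s) ^ 2) (h3 : φ δ - φ 0 ≤ c * δ)
    (hs : δ / 4 ≤ s) (hst : s < t) (ht : t ≤ 3 * δ / 4) :
    |φ s - φ t| ≤ (4 * c + (4 * C + L) * δ) * (t - s) := by
  have hs0 : 0 < s := by linarith
  have htδ : t < δ := by linarith
  have hts : 0 < t - s := by linarith
  rw [abs_le]
  constructor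
  · -- upper bound of the slope
    have a1 := hsc 0 s t le_rfl hs0 hst htδ.le
    have a2 := h1 s ⟨hs0.le, by linarith⟩
    have a3 : C * (δ - s) ^ 2 ≤ C * δ ^ 2 :=
      mul_le_mul_of_nonneg_left (pow_le_pow_left₀ (by linarith) (by linarith) 2) hC
    have a4 : φ s - φ 0 ≤ C * δ ^ 2 + c * δ := by linarith
    have a5 : C * δ ^ 2 + c * δ ≤ s * (4 * C * δ + 4 * c) := by
      have b1 : C * δ * δ ≤ C * δ * (4 * s) :=
        mul_le_mul_of_nonneg_left (by linarith) (mul_nonneg hC hδ.le)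
      have b2 : c * δ ≤ c * (4 * s) := mul_le_mul_of_nonneg_left (by linarith) hc.le
      nlinarith
    have a6 : (t - s) * (φ s - φ 0) ≤ (t - s) * (s * (4 * C * δ + 4 * c)) :=
      mul_le_mul_of_nonneg_left (a4.trans a5) hts.le
    have a7 : L * ((s - 0) * (t - s) * (t - 0)) ≤ L * (s * (t - s) * δ) :=
      mul_le_mul_of_nonneg_left (by
        rw [sub_zero, sub_zero]
        exact mul_le_mul_of_nonneg_left (by linarith) (mul_nonneg hs0.le hts.le)) hL
    have a8 : s * (φ t - φ s) ≤ s * ((4 * c + (4 * C + L) * δ) * (t - s)) := by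
      rw [sub_zero] at a1
      nlinarith
    have a9 := le_of_mul_le_mul_left a8 hs0
    linarith
  · -- lower bound
    have a1 := hsc s t δ hs0.le hst htδ le_rfl
    have a2 := h1 t ⟨by linarith, htδ.le⟩
    have hδt : 0 < δ - t := by linarith
    have a3 : (t - s) * (-(C * (δ - t) ^ 2)) ≤ (t - s) * (φ δ - φ t) :=
      mul_le_mul_of_nonneg_left (by linarith) hts.le
    have a4 : (δ - t) * (-((t - s) * (C * (δ - t) + L * (δ - s)))) ≤ (δ - t) * (φ t - φ s) := by
      nlinarith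
    have a5 := le_of_mul_le_mul_left a4 hδt
    have a6 : (t - s) * (C * (δ - t) + L * (δ - s)) ≤ (t - s) * ((4 * C + L) * δ) := by
      refine mul_le_mul_of_nonneg_left ?_ hts.le
      have b1 : C * (δ - t) ≤ C * δ := mul_le_mul_of_nonneg_left (by linarith) hC
      have b2 : L * (δ - s) ≤ L * δ := mul_le_mul_of_nonneg_left (by linarith) hL
      have b3 : 0 ≤ C * δ := mul_nonneg hC hδ.le
      nlinarith
    have a7 : 0 ≤ 4 * c * (t - s) := mul_nonneg (by linarith) hts.le
    nlinarith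

theorem bs (hQQ : T_QQ) (hEL : T_EL) : T_BS := by
  intro X _ D R c hX hR hc
  have hD : 1 ≤ D := hX.one_le
  set C : ℝ := cosh D * cosh D / (2 * R) with hCdef
  set L : ℝ := cosh D / R with hLdef
  have hcD : 0 < cosh D := cosh_pos D
  have hC : 0 ≤ C := by positivity
  have hL : 0 ≤ L := by positivity
  refine ⟨c / (4 * C + L + 1), by positivity, ?_⟩
  intro z p y γ hγ hδ hδ1 hlow hfoot hdd
  set δ := dist z p with hδdef
  have hsmall : (4 * C + L) * δ ≤ c := by
    have : δ * (4 * C + L + 1) ≤ c := (le_div_iff₀ (by positivity)).1 hδ1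
    nlinarith
  have hsc := fun (s r t : ℝ) (hs : 0 ≤ s) (hsr : s < r) (hrt : r < t) (ht : t ≤ δ) =>
    slope3 hQQ hX.cb (q := y) (ρ := D) (d := R) hγ hR
      (fun s hs => ⟨by rw [dist_comm]; exact hlow s hs, hX.diam _ _⟩) hs hsr hrt ht
  have hγδ : γ δ = p := hγ.2.1
  have hδm : δ ∈ Icc (0 : ℝ) δ := ⟨hδ.le, le_rfl⟩
  have hpy : R ≤ dist p y := by
    have := hlow δ hδm
    rwa [hγδ] at this
  have h1 : ∀ s ∈ Icc (0 : ℝ) δ, dist y (γ s) ≤ dist y (γ δ) + C * (δ - s) ^ 2 := by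
    intro s hs
    rw [hγδ, dist_comm y, dist_comm y]
    have hsq : 0 ≤ (δ - s) ^ 2 := sq_nonneg _
    rcases le_or_gt (dist (γ s) y) (dist p y) with h | h
    · have : 0 ≤ C * (δ - s) ^ 2 := mul_nonneg hC hsq
      linarith
    · have hf := hfoot s hs
      have hsp : dist (γ s) p = δ - s := by
        rw [← hγδ, hγ.2.2 s hs δ hδm, abs_sub_comm, abs_of_nonneg (by linarith [hs.2])]
      rw [hsp] at hf
      have hEs := hEL D (δ - s) (by linarith [hs.2]) (by
        have : δ ≤ D := hX.diam _ _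
        linarith [hs.1])
      have hcpy : cosh (dist p y) ≤ cosh D := by
        rw [cosh_le_cosh, abs_of_nonneg dist_nonneg, abs_of_nonneg (by linarith)]
        exact hX.diam _ _
      have hcpy1 : 0 ≤ cosh (dist p y) := (cosh_pos _).le
      have g1 : cosh (dist (γ s) y) - cosh (dist p y) ≤
          ((δ - s) ^ 2 / 2 * cosh D) * cosh D := by
        calc cosh (dist (γ s) y) - cosh (dist p y)
            ≤ (cosh (δ - s) - 1) * cosh (dist p y) := by linarith
          _ ≤ ((δ - s) ^ 2 / 2 * cosh D) * cosh (dist p y) :=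
            mul_le_mul_of_nonneg_right hEs.2.2.2.1 hcpy1
          _ ≤ _ := mul_le_mul_of_nonneg_left hcpy (by positivity)
      set h' := dist (γ s) y - dist p y with hh'
      have hh0 : 0 < h' := by linarith
      have g2 : sinh (dist p y) * h' ≤ cosh (dist (γ s) y) - cosh (dist p y) := by
        have e : dist (γ s) y = dist p y + h' := by rw [hh']; ring
        rw [e, cosh_add]
        have b1 : h' ≤ sinh h' := self_le_sinh_iff.2 hh0.le
        have b2 : 1 ≤ cosh h' := one_le_cosh _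
        have b3 : 0 ≤ sinh (dist p y) := sinh_nonneg_iff.2 dist_nonneg
        nlinarith [mul_le_mul_of_nonneg_left b1 b3, mul_le_mul_of_nonneg_left b2 hcpy1]
      have g3 : R ≤ sinh (dist p y) := hpy.trans (self_le_sinh_iff.2 dist_nonneg)
      have g4 : R * h' ≤ sinh (dist p y) * h' := mul_le_mul_of_nonneg_right g3 hh0.le
      have g5 : R * h' ≤ R * (C * (δ - s) ^ 2) := by
        have e : R * (C * (δ - s) ^ 2) = (δ - s) ^ 2 / 2 * cosh D * cosh D := by
          rw [hCdef]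
          field_simp
        rw [e]
        linarith
      have g6 := le_of_mul_le_mul_left g5 hR
      linarith
  have h3 : dist y (γ δ) - dist y (γ 0) ≤ c * δ := by
    rw [hγδ, hγ.1, dist_comm y, dist_comm y]
    exact hdd
  have key : ∀ s t : ℝ, δ / 4 ≤ s → s < t → t ≤ 3 * δ / 4 →
      |dist y (γ s) - dist y (γ t)| ≤ 5 * c * (t - s) := by
    intro s t hs hst ht
    have := bs_real (φ := fun s => dist y (γ s)) hδ hC hL hc hsc h1 h3 hs hst ht
    refine this.trans (mul_le_mul_of_nonneg_right (by linarith) (by linarith))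
  intro s hs t ht
  rw [dist_comm _ y, dist_comm _ y]
  rcases lt_trichotomy s t with h | h | h
  · rw [abs_sub_comm s t, abs_of_pos (by linarith : 0 < t - s)]
    exact key s t hs.1 h ht.2
  · rw [h]
    simp
  · rw [abs_sub_comm, abs_of_pos (by linarith : 0 < s - t)]
    exact key t s ht.1 h hs.2

end Pool.Agent.H30.AL
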