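import Pool.Agent.H30.AL.BS

/-!
Module NS of the board al_modules.
-/

open Topology Set Filter Real

namespace Pool.Agent.H30.AL

open Pool.Agent.H96.AL

variable {X : Type} [MetricSpace X]

theorem geod_left {x y : X} {γ : ℝ → X} (hγ : IsGeod γ x y) {r : ℝ} (hr : r ∈ Icc 0 (dist x y)) :
    dist x (γ r) = r ∧ IsGeod γ x (γ r) := by
  have h0 : (0 : ℝ) ∈ Icc 0 (dist x y) := ⟨le_rfl, dist_nonneg⟩
  have e : dist x (γ r) = r := by
    rw [← hγ.1, hγ.2.2 0 h0 r hr, zero_sub, abs_neg, abs_of_nonneg hr.1]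
  refine ⟨e, hγ.1, by rw [e], fun s hs t ht => ?_⟩
  rw [e] at hs ht
  exact hγ.2.2 s ⟨hs.1, hs.2.trans hr.2⟩ t ⟨ht.1, ht.2.trans hr.2⟩

theorem geod_right {x y : X} {γ : ℝ → X} (hγ : IsGeod γ x y) {r : ℝ} (hr : r ∈ Icc 0 (dist x y)) :
    dist (γ r) y = dist x y - r ∧ IsGeod (fun s => γ (r + s)) (γ r) y := by
  have h1 : dist x y ∈ Icc 0 (dist x y) := ⟨dist_nonneg, le_rfl⟩
  have e : dist (γ r) y = dist x y - r := by
    conv_lhs => rw [← hγ.2.1]
    rw [hγ.2.2 r hr _ h1, abs_sub_comm, abs_of_nonneg (by linarith [hr.2])]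
  refine ⟨e, by simp, ?_, fun s hs t ht => ?_⟩
  · show γ (r + dist (γ r) y) = y
    rw [e]
    have : r + (dist x y - r) = dist x y := by ring
    rw [this, hγ.2.1]
  · rw [e] at hs ht
    show dist (γ (r + s)) (γ (r + t)) = _
    rw [hγ.2.2 (r + s) ⟨by linarith [hr.1, hs.1], by linarith [hs.2]⟩ (r + t)
      ⟨by linarith [hr.1, ht.1], by linarith [ht.2]⟩]
    congr 1
    ring

theorem cosh_tangent {u v : ℝ} (hu : 0 ≤ u) : cosh u + sinh u * (v - u) ≤ cosh v := by
  set w := u - v with hw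
  have e : v = u - w := by rw [hw]; ring
  rw [e, cosh_sub]
  have hsu : 0 ≤ sinh u := sinh_nonneg_iff.2 hu
  have hcu : sinh u ≤ cosh u := (sinh_lt_cosh u).le
  have hcw : 0 ≤ cosh w - 1 := by linarith [one_le_cosh w]
  have h1 : sinh w - w ≤ cosh w - 1 := by
    have := add_one_le_exp (-w)
    rw [← cosh_sub_sinh] at this
    linarith
  have h2 : sinh u * (sinh w - w) ≤ cosh u * (cosh w - 1) := by
    calc sinh u * (sinh w - w) ≤ sinh u * (cosh w - 1) := mul_le_mul_of_nonneg_left h1 hsu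
      _ ≤ cosh u * (cosh w - 1) := mul_le_mul_of_nonneg_right hcu hcw
  nlinarith

theorem cc_small {u v h Λ τ : ℝ} (hu : 0 < u) (hh : 0 < h) (hτ : 0 ≤ τ) (hv : |v - u| ≤ τ * h)
    (hΛ0 : 0 ≤ Λ) (hΛ : cosh u ≤ Λ * sinh u) (h1 : cosh h - 1 ≤ h * sinh h) (h2 : h ≤ sinh h) :
    cc h u v ≤ Λ * h + τ := by
  unfold cc
  have hsh : 0 < sinh h := sinh_pos_iff.2 hh
  have hsu : 0 < sinh u := sinh_pos_iff.2 hu
  rw [div_le_iff₀ (mul_pos hsh hsu)]
  have t := cosh_tangent (v := v) hu.le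
  have a1 : -(τ * h) ≤ v - u := (abs_le.1 hv).1
  have a2 : sinh u * (-(τ * h)) ≤ sinh u * (v - u) := mul_le_mul_of_nonneg_left a1 hsu.le
  have a3 : (cosh h - 1) * cosh u ≤ (h * sinh h) * (Λ * sinh u) :=
    mul_le_mul h1 hΛ (cosh_pos u).le (by positivity)
  have a4 : τ * h * sinh u ≤ τ * sinh h * sinh u :=
    mul_le_mul_of_nonneg_right (mul_le_mul_of_nonneg_left h2 hτ) hsu.le
  nlinarith

theorem cc_symm (a b c : ℝ) : cc a b c = cc b a c := by
  unfold cc
  rw [mul_comm (cosh a), mul_comm (sinh a)]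

theorem cc_half {h : ℝ} (hh : 0 < h) : cc (h / 2) (h / 2) h = -1 := by
  unfold cc
  have hs : 0 < sinh (h / 2) := sinh_pos_iff.2 (by linarith)
  have e : cosh h = cosh (h / 2) * cosh (h / 2) + sinh (h / 2) * sinh (h / 2) := by
    rw [← cosh_add]
    congr 1
    ring
  rw [e]
  have : cosh (h / 2) * cosh (h / 2) - (cosh (h / 2) * cosh (h / 2) + sinh (h / 2) * sinh (h / 2)) =
    -(sinh (h / 2) * sinh (h / 2)) := by ring
  rw [this, neg_div, div_self (mul_pos hs hs).ne']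

theorem exists_low {m : ℕ} (f : Fin m → ℝ) (h : ∀ i, 0 < f i) : ∃ d > 0, ∀ i, d ≤ f i := by
  rcases isEmpty_or_nonempty (Fin m) with he | he
  · exact ⟨1, one_pos, fun i => (he.false i).elim⟩
  · obtain ⟨i₀, hi⟩ := Finite.exists_min f
    exact ⟨f i₀, h i₀, hi⟩

theorem exists_up {m : ℕ} (f : Fin m → ℝ) : ∃ d > 0, ∀ i, f i ≤ d := by
  rcases isEmpty_or_nonempty (Fin m) with he | he
  · exact ⟨1, one_pos, fun i => (he.false i).elim⟩
  · obtain ⟨i₀, hi⟩ := Finite.exists_max f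
    exact ⟨|f i₀| + 1, by positivity, fun i => by linarith [hi i, le_abs_self (f i₀)]⟩

/-- the change of the distances over half of a short segment -/
theorem ns_dist (hXS : T_XS) (hQQ : T_QQ) (hG : Geo X) (hcb : CB X) {a b : X} {κ d ρ : ℝ}
    {O : Set X} (hκ : 0 < κ) (hκ1 : κ ≤ 1) (hO : IsOpen O)
    (hS : ∀ w ∈ O, w ≠ a ∧ w ≠ b ∧ cc (dist w a) (dist w b) (dist a b) ≤ -1 + κ ^ 2)
    {x y : X} {γ : ℝ → X} (hγ : IsGeod γ x y) (hγO : ∀ s ∈ Icc (0 : ℝ) (dist x y), γ s ∈ O)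
    (hd : 0 < d) (ha : ∀ s ∈ Icc (0 : ℝ) (dist x y), d ≤ dist a (γ s) ∧ dist a (γ s) ≤ ρ)
    (hb : ∀ s ∈ Icc (0 : ℝ) (dist x y), d ≤ dist b (γ s) ∧ dist b (γ s) ≤ ρ)
    (hxy : 0 < dist x y) (hab : |dist x a - dist y a| ≤ κ * dist x y) :
    ∀ o, o = a ∨ o = b → ∀ e, e = x ∨ e = y →
      |dist e o - dist (γ (dist x y / 2)) o| ≤
        (5 * κ + cosh ρ / d * dist x y) * (dist x y / 2) := by
  set h := dist x y with hh
  set Λ := cosh ρ / d with hΛ
  have hΛ0 : 0 ≤ Λ := div_nonneg (cosh_pos ρ).le hd.le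
  have hr : h / 2 ∈ Icc (0 : ℝ) (dist x y) := ⟨by linarith, by linarith⟩
  set q := γ (h / 2) with hq
  have h00 : γ 0 = x := hγ.1
  have h11 : γ h = y := hγ.2.1
  have sa := slope3 hQQ hcb (q := a) hγ hd ha (s := 0) (r := h / 2) (t := h) le_rfl (by linarith)
    (by linarith) (by rw [← hh])
  have sb := slope3 hQQ hcb (q := b) hγ hd hb (s := 0) (r := h / 2) (t := h) le_rfl (by linarith)
    (by linarith) (by rw [← hh])
  rw [h00, h11, ← hΛ, ← hq] at sa sb
  obtain ⟨e1, g1⟩ := geod_left hγ hr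
  obtain ⟨e2, g2⟩ := geod_right hγ hr
  rw [← hq] at e1 g1 e2 g2
  have x1 := hXS X hG hcb a b κ O hκ hκ1 hO hS x q γ g1 (fun s hs => hγO s (by
    rw [e1] at hs
    exact ⟨hs.1, by linarith [hs.2]⟩))
  have x2 := hXS X hG hcb a b κ O hκ hκ1 hO hS q y _ g2 (fun s hs => hγO (h / 2 + s) (by
    rw [e2] at hs
    exact ⟨by linarith [hs.1], by linarith [hs.2]⟩))
  rw [e1] at x1
  rw [e2] at x2
  have ex2 : 2 * κ * (dist x y - h / 2) = 2 * κ * (h / 2) := by rw [← hh]; ring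
  rw [ex2] at x2
  rw [dist_comm a, dist_comm a, dist_comm a] at sa
  rw [dist_comm b, dist_comm b, dist_comm b] at sb
  -- cancel the factor h / 2
  have sa' : dist y a - dist q a ≤ dist q a - dist x a + Λ * h * (h / 2) := by
    have : h / 2 * (dist y a - dist q a) ≤
        h / 2 * (dist q a - dist x a + Λ * h * (h / 2)) := by nlinarith
    exact le_of_mul_le_mul_left this (by linarith)
  have sb' : dist y b - dist q b ≤ dist q b - dist x b + Λ * h * (h / 2) := by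
    have : h / 2 * (dist y b - dist q b) ≤
        h / 2 * (dist q b - dist x b + Λ * h * (h / 2)) := by nlinarith
    exact le_of_mul_le_mul_left this (by linarith)
  have hP : 0 ≤ Λ * h * (h / 2) := by positivity
  have hQ : 0 ≤ κ * h := by positivity
  rw [abs_le] at x1 x2 hab
  have eP : (5 * κ + Λ * h) * (h / 2) = 5 * (κ * h) / 2 + Λ * h * (h / 2) := by ring
  have eQ : 2 * κ * (h / 2) = κ * h := by ring
  rw [eQ] at x1 x2
  rintro o (rfl | rfl) e (rfl | rfl) <;> rw [eP, abs_le] <;> constructor <;>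
    linarith [x1.1, x1.2, x2.1, x2.2, hab.1, hab.2]

theorem ns (hXS : T_XS) (hQQ : T_QQ) (hEL : T_EL) : T_NS := by
  intro X _ hG hcb m a b κ O hκ hκ1 hO hS p hp
  obtain ⟨r1, hr1, hball⟩ := Metric.isOpen_iff.1 hO p hp
  have hSp := hS p hp
  obtain ⟨da, hda, hda'⟩ := exists_low (fun i => dist p (a i)) (fun i => dist_pos.2 (hSp.1 i).1)
  obtain ⟨db, hdb, hdb'⟩ := exists_low (fun i => dist p (b i)) (fun i => dist_pos.2 (hSp.1 i).2.1)
  obtain ⟨Ra, hRa, hRa'⟩ := exists_up (fun i => dist p (a i))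
  obtain ⟨Rb, hRb, hRb'⟩ := exists_up (fun i => dist p (b i))
  set d : ℝ := min da db / 2 with hddef
  have hd : 0 < d := by have := lt_min hda hdb; positivity
  set ρ₀ : ℝ := max Ra Rb + 1 with hρ₀
  set Λ : ℝ := cosh ρ₀ / d with hΛdef
  have hΛ : 0 < Λ := div_pos (cosh_pos _) hd
  set ρ : ℝ := min (min (r1 / 3) (d / 3)) (min (1 / 3) (κ / (4 * Λ + 4))) with hρdef
  have hρ : 0 < ρ := by
    refine lt_min (lt_min (by positivity) (by positivity)) (lt_min (by positivity) (by positivity))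
  have hρ1 : 3 * ρ ≤ r1 := by
    have : ρ ≤ r1 / 3 := (min_le_left _ _).trans (min_le_left _ _)
    linarith
  have hρ2 : 3 * ρ ≤ d := by
    have : ρ ≤ d / 3 := (min_le_left _ _).trans (min_le_right _ _)
    linarith
  have hρ3 : 3 * ρ ≤ 1 := by
    have : ρ ≤ 1 / 3 := (min_le_right _ _).trans (min_le_left _ _)
    linarith
  have hρ4 : ρ * (4 * Λ + 4) ≤ κ := by
    have : ρ ≤ κ / (4 * Λ + 4) := (min_le_right _ _).trans (min_le_right _ _)
    rwa [le_div_iff₀ (by positivity)] at this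
  refine ⟨ρ, hρ, ?_⟩
  intro x hx y hy hxy hab
  rw [Metric.mem_ball] at hx hy
  have hh : 0 < dist x y := dist_pos.2 hxy
  have hh2 : dist x y < 2 * ρ := by
    have := dist_triangle_right x y p
    linarith
  obtain ⟨γ, hγ⟩ := hG x y
  have hnear : ∀ s ∈ Icc (0 : ℝ) (dist x y), dist (γ s) p < 3 * ρ := by
    intro s hs
    have e := (geod_left hγ hs).1
    have := dist_triangle (γ s) x p
    rw [dist_comm (γ s) x, e] at this
    linarith [hs.2]
  have hnO : ∀ s ∈ Icc (0 : ℝ) (dist x y), γ s ∈ O := fun s hs =>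
    hball (Metric.mem_ball.2 ((hnear s hs).trans_le hρ1))
  have hda2 : ∀ i, 2 * d ≤ dist p (a i) := fun i => by
    have := hda' i
    have h2 : min da db ≤ da := min_le_left _ _
    rw [hddef]
    linarith
  have hdb2 : ∀ i, 2 * d ≤ dist p (b i) := fun i => by
    have := hdb' i
    have h2 : min da db ≤ db := min_le_right _ _
    rw [hddef]
    linarith
  have hRa2 : ∀ i, dist p (a i) ≤ ρ₀ - 1 := fun i => by
    have := hRa' i
    have h2 : Ra ≤ max Ra Rb := le_max_left _ _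
    rw [hρ₀]
    linarith
  have hRb2 : ∀ i, dist p (b i) ≤ ρ₀ - 1 := fun i => by
    have := hRb' i
    have h2 : Rb ≤ max Ra Rb := le_max_right _ _
    rw [hρ₀]
    linarith
  have hA : ∀ o : X, 2 * d ≤ dist p o → dist p o ≤ ρ₀ - 1 → ∀ s ∈ Icc (0 : ℝ) (dist x y),
      d ≤ dist o (γ s) ∧ dist o (γ s) ≤ ρ₀ := by
    intro o h1 h2 s hs
    have h3 := hnear s hs
    have t1 := dist_triangle p (γ s) o
    have t2 := dist_triangle o p (γ s)
    rw [dist_comm p (γ s), dist_comm (γ s) o] at t1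
    rw [dist_comm o p, dist_comm p (γ s)] at t2
    constructor <;> linarith
  have hhalf : dist x y / 2 ∈ Icc (0 : ℝ) (dist x y) := ⟨by linarith, by linarith⟩
  set q := γ (dist x y / 2) with hq
  have hqO : q ∈ O := hnO _ hhalf
  have hSq := hS q hqO
  have hqx : dist q x = dist x y / 2 := by
    rw [dist_comm]
    exact (geod_left hγ hhalf).1
  have hqy : dist q y = dist x y / 2 := by
    rw [(geod_right hγ hhalf).1]
    ring
  have hqe : ∀ e, e = x ∨ e = y → dist q e = dist x y / 2 := by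
    rintro e (rfl | rfl)
    · exact hqx
    · exact hqy
  have hsmall : Λ * dist x y < κ / 2 := by
    have : Λ * dist x y ≤ Λ * (2 * ρ) := mul_le_mul_of_nonneg_left hh2.le hΛ.le
    nlinarith
  have hcc : ∀ i, ∀ o, o = a i ∨ o = b i → ∀ e, e = x ∨ e = y →
      cc (dist q e) (dist q o) (dist e o) < 8 * κ := by
    intro i o ho e he
    have hdist := ns_dist hXS hQQ hG hcb (a := a i) (b := b i) (κ := κ) (d := d) (ρ := ρ₀) hκ
      (by linarith) hO (fun w hw => ⟨((hS w hw).1 i).1, ((hS w hw).1 i).2.1,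
        ((hS w hw).1 i).2.2.le⟩) hγ hnO hd (hA _ (hda2 i) (hRa2 i)) (hA _ (hdb2 i) (hRb2 i)) hh
      (hab i) o ho e he
    have hoq : d ≤ dist q o ∧ dist q o ≤ ρ₀ := by
      rw [dist_comm]
      rcases ho with rfl | rfl
      · exact hA _ (hda2 i) (hRa2 i) _ hhalf
      · exact hA _ (hdb2 i) (hRb2 i) _ hhalf
    have hE := hEL (dist x y / 2) (dist x y / 2) (by linarith) le_rfl
    have hu : 0 < dist q o := hd.trans_le hoq.1
    have hc1 : cosh (dist q o) ≤ Λ * sinh (dist q o) := by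
      have h1 : cosh (dist q o) ≤ cosh ρ₀ := by
        rw [cosh_le_cosh, abs_of_pos hu, abs_of_pos (hu.trans_le hoq.2)]
        exact hoq.2
      have h2 : d ≤ sinh (dist q o) := hoq.1.trans (self_le_sinh_iff.2 hu.le)
      have h3 : Λ * d = cosh ρ₀ := by rw [hΛdef]; exact div_mul_cancel₀ _ hd.ne'
      have h4 : Λ * d ≤ Λ * sinh (dist q o) := mul_le_mul_of_nonneg_left h2 hΛ.le
      linarith
    have := cc_small (u := dist q o) (v := dist e o) (h := dist x y / 2) (Λ := Λ)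
      (τ := 5 * κ + Λ * dist x y) hu (by linarith) (by positivity) hdist hΛ.le hc1
      hE.2.2.2.2 hE.1
    rw [hqe e he]
    linarith
  have hcc' : ∀ i, ∀ o, o = a i ∨ o = b i → ∀ e, e = x ∨ e = y →
      cc (dist q o) (dist q e) (dist o e) < 8 * κ := by
    intro i o ho e he
    rw [cc_symm, dist_comm o e]
    exact hcc i o ho e he
  refine ⟨Fin.snoc (α := fun _ => X) a x, Fin.snoc (α := fun _ => X) b y, q, hqO, ?_, ?_⟩
  · intro i
    refine Fin.lastCases ?_ (fun i => ?_) i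
    · rw [Fin.snoc_last, Fin.snoc_last]
      refine ⟨?_, ?_, ?_⟩
      · intro h
        rw [h, dist_self] at hqx
        linarith
      · intro h
        rw [h, dist_self] at hqy
        linarith
      · rw [hqx, hqy, cc_half hh]
        nlinarith
    · rw [Fin.snoc_castSucc, Fin.snoc_castSucc]
      refine ⟨(hSq.1 i).1, (hSq.1 i).2.1, (hSq.1 i).2.2.trans_le ?_⟩
      nlinarith
  · intro i j
    refine Fin.lastCases ?_ (fun i => ?_) i
    · refine Fin.lastCases ?_ (fun j => ?_) j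
      · intro h
        exact absurd rfl h
      · intro _
        rw [Fin.snoc_last, Fin.snoc_last, Fin.snoc_castSucc, Fin.snoc_castSucc]
        exact ⟨hcc j _ (Or.inl rfl) _ (Or.inl rfl), hcc j _ (Or.inr rfl) _ (Or.inl rfl),
          hcc j _ (Or.inr rfl) _ (Or.inr rfl)⟩
    · refine Fin.lastCases ?_ (fun j => ?_) j
      · intro _
        rw [Fin.snoc_last, Fin.snoc_last, Fin.snoc_castSucc, Fin.snoc_castSucc]
        exact ⟨hcc' i _ (Or.inl rfl) _ (Or.inl rfl), hcc' i _ (Or.inl rfl) _ (Or.inr rfl),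
          hcc' i _ (Or.inr rfl) _ (Or.inr rfl)⟩
      · intro hij
        have hij' : i ≠ j := fun h => hij (by rw [h])
        rw [Fin.snoc_castSucc, Fin.snoc_castSucc, Fin.snoc_castSucc, Fin.snoc_castSucc]
        obtain ⟨h1, h2, h3⟩ := hSq.2 i j hij'
        exact ⟨by linarith, by linarith, by linarith⟩

end Pool.Agent.H30.AL
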