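import Pool.Agent.H30.AL.SA

/-!
Module PE of the board al_modules.
-/

open Topology Set Filter Real

namespace Pool.Agent.H30.AL

open Pool.Agent.H96.AL

variable {X : Type} [MetricSpace X]

theorem lip_mono {f : X → ℝ} {L L' : ℝ} (h : L ≤ L') (hf : Lip L f) : Lip L' f :=
  fun x y => (hf x y).trans (mul_le_mul_of_nonneg_right h dist_nonneg)

theorem good_mono {f : X → ℝ} {L L' : ℝ} (h : L ≤ L') (hf : Good L f) : Good L' f := by
  intro E hE z p hp
  have h1 := hf E hE z p hp
  have h2 : L * dist z p ^ 2 ≤ L' * dist z p ^ 2 := mul_le_mul_of_nonneg_right h (sq_nonneg _)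
  linarith

theorem good_add {f g : X → ℝ} {L L' : ℝ} (hf : Good L f) (hg : Good L' g) :
    Good (L + L') (fun z => f z + g z) := by
  intro E hE z p hp
  have h1 := hf E hE z p hp
  have h2 := hg E hE z p hp
  simp only
  rw [add_mul]
  linarith

theorem good_mul {f : X → ℝ} {L c : ℝ} (hc : 0 ≤ c) (hf : Good L f) :
    Good (c * L) (fun z => c * f z) := by
  intro E hE z p hp
  have h1 := mul_le_mul_of_nonneg_left (hf E hE z p hp) hc
  simp only
  rw [mul_sub, ← mul_assoc] at h1
  exact h1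

theorem good_const {L : ℝ} (hL : 0 ≤ L) (a : ℝ) : Good L (fun _ : X => a) := by
  intro E hE z p hp
  have : 0 ≤ L * dist z p ^ 2 := mul_nonneg hL (sq_nonneg _)
  simp only
  linarith

/-- sums of finitely many functions -/
theorem sum_gen (P : ℝ → (X → ℝ) → Prop) (h0 : P 0 (fun _ => 0))
    (hadd : ∀ a b f g, P a f → P b g → P (a + b) (fun z => f z + g z)) {m : ℕ}
    (g : Fin m → X → ℝ) (K : ℝ) (h : ∀ i, P K (g i)) :
    P (m * K) (fun z => ∑ i, g i z) := by
  classical
  have key : ∀ s : Finset (Fin m), P (s.card * K) (fun z => ∑ i ∈ s, g i z) := by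
    intro s
    induction s using Finset.induction_on with
    | empty => simpa using h0
    | insert a s ha ih =>
      have e := hadd _ _ _ _ (h a) ih
      have e1 : K + (s.card : ℝ) * K = ((insert a s).card : ℝ) * K := by
        rw [Finset.card_insert_of_notMem ha]
        push_cast
        ring
      have e2 : (fun z => g a z + ∑ i ∈ s, g i z) = fun z => ∑ i ∈ insert a s, g i z := by
        funext z
        rw [Finset.sum_insert ha]
      rw [e1, e2] at e
      exact e
  simpa using key Finset.univ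

theorem scale_le {μ ε e K : ℝ} (hK : 0 ≤ K) (hμ1 : μ ≤ 1) (he : 0 < e)
    (hε : e ≤ ε) : μ * (K / ε ^ 2) ≤ K / e ^ 2 := by
  have h1 : K / ε ^ 2 ≤ K / e ^ 2 :=
    div_le_div_of_nonneg_left hK (by positivity) (pow_le_pow_left₀ he.le hε 2)
  have hε0 : 0 < ε := lt_of_lt_of_le he hε
  have h2 : 0 ≤ K / ε ^ 2 := by positivity
  calc μ * (K / ε ^ 2) ≤ 1 * (K / ε ^ 2) := mul_le_mul_of_nonneg_right hμ1 h2
    _ = K / ε ^ 2 := one_mul _
    _ ≤ _ := h1

theorem pe (hLP : T_LP) : T_PE := by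
  intro X _ D hX f L Λ C hL hΛ hC hf1 hf2 hf3 m E hE e he he1
  have hD : 0 ≤ D := by linarith [hX.one_le]
  have hcD : 0 ≤ cosh D := (cosh_pos D).le
  refine ⟨L + m * (D / e ^ 2), Λ + m * (cosh D / e ^ 2), C + m * (cosh D ^ 2 / e ^ 2),
    by positivity, by positivity, by positivity, ?_⟩
  intro μ ε hμ
  have key : ∀ i, Lip (D / e ^ 2) (fun z => μ i * lp (E i) (ε i) z) ∧
      SC (cosh D / e ^ 2) (fun z => μ i * lp (E i) (ε i) z) ∧
      Good (cosh D ^ 2 / e ^ 2) (fun z => μ i * lp (E i) (ε i) z) := by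
    intro i
    obtain ⟨h1, h2, h3, h4⟩ := hμ i
    obtain ⟨a1, a2, a3, -⟩ := hLP X D hX (E i) (hE i).1 (hE i).2 (ε i)
      (lt_of_lt_of_le he h3) h4
    exact ⟨lip_mono (scale_le hD h2 he h3) (lip_mul h1 a1),
      sc_mono (scale_le hcD h2 he h3) (sc_mul h1 a2),
      good_mono (scale_le (by positivity) h2 he h3) (good_mul h1 a3)⟩
  refine ⟨?_, ?_, ?_⟩
  · exact lip_add hf1 (sum_gen (fun a g => Lip a g) (lip_const le_rfl 0)
      (fun a b f g => lip_add) _ _ fun i => (key i).1)
  · exact sc_add hf2 (sum_gen (fun a g => SC a g) (sc_const le_rfl 0)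
      (fun a b f g => sc_add) _ _ fun i => (key i).2.1)
  · exact good_add hf3 (sum_gen (fun a g => Good a g) (good_const le_rfl 0)
      (fun a b f g => good_add) _ _ fun i => (key i).2.2)

end Pool.Agent.H30.AL
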