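import Pool.Agent.H96.AL.Targets2

/-!
Module SA of the board al_modules.
-/

open Topology Set Filter Real

namespace Pool.Agent.H30.AL

open Pool.Agent.H96.AL

variable {X : Type} [MetricSpace X]

theorem lip_add {f g : X → ℝ} {L L' : ℝ} (hf : Lip L f) (hg : Lip L' g) :
    Lip (L + L') (fun z => f z + g z) := by
  intro x y
  have h1 := abs_le.1 (hf x y)
  have h2 := abs_le.1 (hg x y)
  simp only
  rw [abs_le, add_mul]
  constructor <;> linarith [h1.1, h1.2, h2.1, h2.2]

theorem lip_min {f g : X → ℝ} {L L' : ℝ} (hf : Lip L f) (hg : Lip L' g) :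
    Lip (max L L') (fun z => min (f z) (g z)) := by
  intro x y
  have h1 : |f x - f y| ≤ max L L' * dist x y :=
    (hf x y).trans (mul_le_mul_of_nonneg_right (le_max_left _ _) dist_nonneg)
  have h2 : |g x - g y| ≤ max L L' * dist x y :=
    (hg x y).trans (mul_le_mul_of_nonneg_right (le_max_right _ _) dist_nonneg)
  exact (abs_min_sub_min_le_max _ _ _ _).trans (max_le h1 h2)

theorem lip_mul {f : X → ℝ} {L c : ℝ} (hc : 0 ≤ c) (hf : Lip L f) :
    Lip (c * L) (fun z => c * f z) := by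
  intro x y
  simp only
  rw [← mul_sub, abs_mul, abs_of_nonneg hc, mul_assoc]
  exact mul_le_mul_of_nonneg_left (hf x y) hc

theorem lip_const {L : ℝ} (hL : 0 ≤ L) (a : ℝ) : Lip L (fun _ : X => a) := by
  intro x y
  simp only [sub_self, abs_zero]
  exact mul_nonneg hL dist_nonneg

theorem sc_add {f g : X → ℝ} {L L' : ℝ} (hf : SC L f) (hg : SC L' g) :
    SC (L + L') (fun z => f z + g z) := by
  intro x y m t ht h1 h2
  have e1 := hf x y m t ht h1 h2
  have e2 := hg x y m t ht h1 h2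
  simp only
  nlinarith [e1, e2]

theorem sc_mono {f : X → ℝ} {L L' : ℝ} (h : L ≤ L') (hf : SC L f) : SC L' f := by
  intro x y m t ht h1 h2
  have e1 := hf x y m t ht h1 h2
  have e2 : 0 ≤ (L' - L) / 2 * (t * (1 - t) * dist x y ^ 2) :=
    mul_nonneg (by linarith) (mul_nonneg (mul_nonneg ht.1 (by linarith [ht.2])) (sq_nonneg _))
  nlinarith [e1, e2]

theorem sc_min {f g : X → ℝ} {L L' : ℝ} (hf : SC L f) (hg : SC L' g) :
    SC (max L L') (fun z => min (f z) (g z)) := by
  intro x y m t ht h1 h2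
  have e1 := sc_mono (le_max_left L L') hf x y m t ht h1 h2
  have e2 := sc_mono (le_max_right L L') hg x y m t ht h1 h2
  have ht1 : 0 ≤ 1 - t := by linarith [ht.2]
  refine le_min ?_ ?_
  · have a1 := mul_le_mul_of_nonneg_left (min_le_left (f x) (g x)) ht1
    have a2 := mul_le_mul_of_nonneg_left (min_le_left (f y) (g y)) ht.1
    linarith
  · have a1 := mul_le_mul_of_nonneg_left (min_le_right (f x) (g x)) ht1
    have a2 := mul_le_mul_of_nonneg_left (min_le_right (f y) (g y)) ht.1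
    linarith

theorem sc_mul {f : X → ℝ} {L c : ℝ} (hc : 0 ≤ c) (hf : SC L f) :
    SC (c * L) (fun z => c * f z) := by
  intro x y m t ht h1 h2
  have e1 := mul_le_mul_of_nonneg_left (hf x y m t ht h1 h2) hc
  simp only
  nlinarith [e1]

theorem sc_const {L : ℝ} (hL : 0 ≤ L) (a : ℝ) : SC L (fun _ : X => a) := by
  intro x y m t ht h1 h2
  have e2 : 0 ≤ L / 2 * (t * (1 - t) * dist x y ^ 2) :=
    mul_nonneg (by linarith) (mul_nonneg (mul_nonneg ht.1 (by linarith [ht.2])) (sq_nonneg _))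
  simp only
  nlinarith [e2]

theorem sa : T_SA := by
  intro X _ f g L L' Λ Λ' c a hL hL' hΛ hΛ' hc
  exact ⟨fun hf hg => ⟨lip_add hf hg, lip_min hf hg, lip_mul hc hf, lip_const hL a⟩,
    fun hf hg => ⟨sc_add hf hg, sc_min hf hg, sc_mul hc hf, sc_const hΛ a⟩⟩

end Pool.Agent.H30.AL
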